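import Pool.Agent.W95.BK.Stm
set_option autoImplicit false

/-!
# Project BK: continuity of the action of a rational map on the Berkovich projective line
-/

open Polynomial Topology Filter

namespace Pool.Agent.W571.BK.Actc

open Pool.Agent.W95.BK

universe u

variable {K : Type u} [NontriviallyNormedField K]

theorem act_coe [IsUltrametricDist K] (f : RMap K) (y : BA K) (h : y f.Q ≠ 0) :
    f.act (y : P1B K) = ((push f y h : BA K) : P1B K) := by
  unfold RMap.act
  rw [OnePoint.elim_some]
  exact dif_pos h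

theorem act_coe_zero [IsUltrametricDist K] (f : RMap K) (y : BA K) (h : y f.Q = 0) :
    f.act (y : P1B K) = OnePoint.infty := by
  unfold RMap.act
  rw [OnePoint.elim_some]
  exact dif_neg (fun h1 => h1 h)

theorem act_inf [IsUltrametricDist K] (f : RMap K) (h : f.Q.coeff f.d = 0) :
    f.act (OnePoint.infty : P1B K) = OnePoint.infty := by
  unfold RMap.act
  rw [OnePoint.elim_infty]
  exact if_pos h

theorem act_inf' [IsUltrametricDist K] (f : RMap K) (h : f.Q.coeff f.d ≠ 0) :
    f.act (OnePoint.infty : P1B K) = ((cl (f.P.coeff f.d / f.Q.coeff f.d) : BA K) : P1B K) := by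
  unfold RMap.act
  rw [OnePoint.elim_infty]
  exact if_neg h

theorem push_apply (f : RMap K) (y : BA K) (h : y f.Q ≠ 0) (g : K[X]) :
    (push f y h).toFun g = y.toFun (hom g.natDegree g f.P f.Q) / y.toFun f.Q ^ g.natDegree := rfl

theorem lam_push (f : RMap K) (y : BA K) (h : y f.Q ≠ 0) (b : K) :
    lam (push f y h) b = y (f.P - C b * f.Q) / y f.Q := by
  unfold lam
  rw [push_apply]
  have h1 : hom 1 (X - C b) f.P f.Q = f.P - C b * f.Q := by
    simp only [hom, Finset.sum_range_succ, Finset.sum_range_zero, coeff_sub, coeff_X, coeff_C]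
    simp
    ring
  rw [natDegree_X_sub_C, pow_one, h1]

theorem tendsto_fin [IsUltrametricDist K] [IsAlgClosed K] (hNB : S_NB.{u}) (f : RMap K)
    (x : P1B K) (y₀ : BA K)
    (hfin : ∀ᶠ p in 𝓝 x, ∃ z : BA K, f.act p = (z : P1B K))
    (h : ∀ (b : K) (ε : ℝ), 0 < ε → ∀ᶠ p in 𝓝 x, ∀ z : BA K, f.act p = (z : P1B K) →
      |lam z b - lam y₀ b| < ε) : Tendsto f.act (𝓝 x) (𝓝 (y₀ : P1B K)) := by
  intro U hU
  obtain ⟨A, B, hA, hB, hAB⟩ := (hNB K).1 y₀ U hU
  have h1 : ∀ᶠ p in 𝓝 x, ∀ q ∈ A, ∀ z : BA K, f.act p = (z : P1B K) → lam z q.1 < q.2 := by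
    refine (eventually_all_finset A).2 (fun q hq => ?_)
    filter_upwards [h q.1 (q.2 - lam y₀ q.1) (by linarith [hA q hq])] with p hp z hz
    have := abs_lt.1 (hp z hz)
    linarith [this.2]
  have h2 : ∀ᶠ p in 𝓝 x, ∀ q ∈ B, ∀ z : BA K, f.act p = (z : P1B K) → q.2 < lam z q.1 := by
    refine (eventually_all_finset B).2 (fun q hq => ?_)
    filter_upwards [h q.1 (lam y₀ q.1 - q.2) (by linarith [(hB q hq).2])] with p hp z hz
    have := abs_lt.1 (hp z hz)
    linarith [this.1]
  rw [mem_map]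
  filter_upwards [hfin, h1, h2] with p hp hp1 hp2
  obtain ⟨z, hz⟩ := hp
  rw [Set.mem_preimage, hz]
  exact hAB z (fun q hq => hp1 q hq z hz) (fun q hq => hp2 q hq z hz)

theorem tendsto_inf [IsUltrametricDist K] [IsAlgClosed K] (hNB : S_NB.{u}) (f : RMap K)
    (x : P1B K)
    (h : ∀ R : ℝ, 0 < R → ∀ᶠ p in 𝓝 x, ∀ z : BA K, f.act p = (z : P1B K) → R < lam z 0) :
    Tendsto f.act (𝓝 x) (𝓝 (OnePoint.infty : P1B K)) := by
  intro U hU
  obtain ⟨h0, R, hR, h1⟩ := (hNB K).2.1 U hU
  rw [mem_map]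
  filter_upwards [h R hR] with p hp
  rw [Set.mem_preimage]
  rcases hq : f.act p with _ | z
  · exact h0
  · exact h1 z (hp z hq)

theorem nhds_inf [IsAlgClosed K] (hNB : S_NB.{u}) (R : ℝ) (p : P1B K → Prop)
    (h0 : p OnePoint.infty) (h : ∀ y : BA K, R < lam y 0 → p (y : P1B K)) :
    ∀ᶠ x in 𝓝 (OnePoint.infty : P1B K), p x := by
  have h1 := (hNB K).2.2.2 0 R
  have h2 : (OnePoint.infty : P1B K) ∈
      {x : P1B K | ∀ y : BA K, x = (y : P1B K) → R < lam y 0} := by
    intro y hy
    exact absurd hy (OnePoint.infty_ne_coe y)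
  filter_upwards [h1.mem_nhds h2] with x hx
  rcases x with _ | y
  · exact h0
  · exact h y (hx y rfl)

/-- values at points far away -/
theorem big [IsAlgClosed K] (hVAL : S_VAL.{u}) (hISO : S_ISO.{u}) (h : K[X]) :
    ∃ R : ℝ, ∀ y : BA K, R < lam y 0 → y h = ‖h.leadingCoeff‖ * lam y 0 ^ h.natDegree := by
  refine ⟨(h.roots.map (fun w => ‖w‖)).sum, fun y hy => ?_⟩
  rw [hVAL K y h]
  have h1 : h.roots.map (fun w => lam y w) = h.roots.map (fun _ => lam y 0) := by
    refine Multiset.map_congr rfl (fun w hw => ?_)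
    have h2 : ‖w‖ ≤ (h.roots.map (fun w => ‖w‖)).sum :=
      Multiset.single_le_sum (fun x hx => by
        obtain ⟨v, -, rfl⟩ := Multiset.mem_map.1 hx
        exact norm_nonneg v) _ (Multiset.mem_map_of_mem _ hw)
    refine (hISO K y w 0).2.2.2 ?_
    rw [sub_zero]
    linarith
  rw [h1, Multiset.map_const', Multiset.prod_replicate]
  congr 2
  exact (splits_iff_card_roots.1 (IsAlgClosed.splits h))

/-- ratios at points far away -/
theorem ratio [IsAlgClosed K] (hVAL : S_VAL.{u}) (hISO : S_ISO.{u}) (g h : K[X]) (d : ℕ)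
    (hg : g.natDegree ≤ d) (hh : h.natDegree = d) (hh0 : h ≠ 0) (hd : 1 ≤ d) (ε : ℝ)
    (hε : 0 < ε) :
    ∃ R : ℝ, ∀ y : BA K, R < lam y 0 → 0 < y h ∧
      |y g / y h - ‖g.coeff d‖ / ‖h.coeff d‖| < ε := by
  obtain ⟨R1, hR1⟩ := big hVAL hISO g
  obtain ⟨R2, hR2⟩ := big hVAL hISO h
  have hlc : 0 < ‖h.leadingCoeff‖ := norm_pos_iff.2 (leadingCoeff_ne_zero.2 hh0)
  have hlc2 : h.coeff d = h.leadingCoeff := by rw [leadingCoeff, hh]
  refine ⟨max (max R1 R2) (max 1 (‖g.leadingCoeff‖ / (ε * ‖h.leadingCoeff‖))), fun y hy => ?_⟩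
  have hy1 : R1 < lam y 0 := ((le_max_left _ _).trans (le_max_left _ _)).trans_lt hy
  have hy2 : R2 < lam y 0 := ((le_max_right _ _).trans (le_max_left _ _)).trans_lt hy
  have hy3 : 1 < lam y 0 := ((le_max_left _ _).trans (le_max_right _ _)).trans_lt hy
  have hy4 : ‖g.leadingCoeff‖ / (ε * ‖h.leadingCoeff‖) < lam y 0 :=
    ((le_max_right _ _).trans (le_max_right _ _)).trans_lt hy
  have hy0 : 0 < lam y 0 := by linarith
  have e1 := hR1 y hy1
  have e2 := hR2 y hy2
  have hpos : 0 < y h := by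
    rw [e2]
    positivity
  refine ⟨hpos, ?_⟩
  by_cases hα : g.coeff d = 0
  · rw [hα, norm_zero, zero_div, sub_zero, abs_of_nonneg (div_nonneg (y.nonneg' _) hpos.le),
      div_lt_iff₀ hpos, e1, e2, hh]
    have h1 : g.natDegree ≤ d - 1 := by
      rcases eq_or_ne g 0 with hg0 | hg0
      · rw [hg0]; simp
      · have h2 : g.natDegree ≠ d := by
          intro h3
          apply hg0
          rw [← leadingCoeff_eq_zero, leadingCoeff, h3, hα]
        omega
    have h2 : lam y 0 ^ g.natDegree ≤ lam y 0 ^ (d - 1) := pow_le_pow_right₀ hy3.le h1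
    have h3 : lam y 0 ^ d = lam y 0 * lam y 0 ^ (d - 1) := by
      rw [← pow_succ']
      congr 1
      omega
    rw [div_lt_iff₀ (mul_pos hε hlc)] at hy4
    have h4 : 0 < lam y 0 ^ (d - 1) := pow_pos hy0 _
    calc ‖g.leadingCoeff‖ * lam y 0 ^ g.natDegree ≤ ‖g.leadingCoeff‖ * lam y 0 ^ (d - 1) :=
          mul_le_mul_of_nonneg_left h2 (norm_nonneg _)
      _ < (lam y 0 * (ε * ‖h.leadingCoeff‖)) * lam y 0 ^ (d - 1) :=
          mul_lt_mul_of_pos_right hy4 h4
      _ = ε * (‖h.leadingCoeff‖ * lam y 0 ^ d) := by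
          rw [h3]
          ring
  · have h1 : g.natDegree = d := le_antisymm hg (le_natDegree_of_ne_zero hα)
    have h2 : g.coeff d = g.leadingCoeff := by rw [leadingCoeff, h1]
    have h3 : y g / y h = ‖g.coeff d‖ / ‖h.coeff d‖ := by
      rw [e1, e2, h1, hh, h2, hlc2, mul_div_mul_right _ _ (pow_pos hy0 d).ne']
    rw [h3, sub_self, abs_zero]
    exact hε

theorem main (hEV : S_EV.{u}) (hVAL : S_VAL.{u}) (hISO : S_ISO.{u}) (hNB : S_NB.{u}) :
    S_ACTC.{u} := by
  intro K _ _ _ f
  rw [continuous_iff_continuousAt]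
  intro x
  have hd := f.pos
  have hPd : f.P.natDegree ≤ f.d := f.deg_eq ▸ le_max_left _ _
  have hQd : f.Q.natDegree ≤ f.d := f.deg_eq ▸ le_max_right _ _
  rcases x with _ | x
  · -- the point at infinity
    change Tendsto f.act (𝓝 (OnePoint.infty : P1B K)) (𝓝 (f.act (OnePoint.infty : P1B K)))
    by_cases hc : f.Q.coeff f.d = 0
    · have h1 : f.act (OnePoint.infty : P1B K) = OnePoint.infty := act_inf f hc
      rw [h1]
      have hPd' : f.P.natDegree = f.d := by
        rcases max_cases f.P.natDegree f.Q.natDegree with ⟨h, _⟩ | ⟨h, _⟩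
        · rw [← h, f.deg_eq]
        · exfalso
          rw [f.deg_eq] at h
          have hQ0 : f.Q = 0 := by
            rw [← leadingCoeff_eq_zero, leadingCoeff, ← h, hc]
          rw [hQ0, natDegree_zero] at h
          omega
      have hP0 : f.P ≠ 0 := by
        intro h
        rw [h, natDegree_zero] at hPd'
        omega
      refine tendsto_inf hNB f _ (fun R hR => ?_)
      obtain ⟨R', hR'⟩ := ratio hVAL hISO f.Q f.P f.d hQd hPd' hP0 hd (1 / R) (by positivity)
      refine nhds_inf hNB R' _ ?_ ?_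
      · intro z hz
        rw [h1] at hz
        exact absurd hz (OnePoint.infty_ne_coe z)
      · intro y hy z hz
        obtain ⟨h2, h3⟩ := hR' y hy
        by_cases hyQ : y f.Q = 0
        · rw [act_coe_zero f y hyQ] at hz
          exact absurd hz (OnePoint.infty_ne_coe z)
        · rw [act_coe f y hyQ] at hz
          have h4 : push f y hyQ = z := OnePoint.coe_injective hz
          rw [← h4, lam_push, C_0, zero_mul, sub_zero]
          have hyQ' : 0 < y f.Q := lt_of_le_of_ne (y.nonneg' _) (Ne.symm hyQ)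
          rw [hc, norm_zero, zero_div, sub_zero, abs_of_nonneg (div_nonneg hyQ'.le h2.le),
            div_lt_div_iff₀ h2 hR, one_mul] at h3
          rw [lt_div_iff₀ hyQ']
          linarith
    · have h1 : f.act (OnePoint.infty : P1B K)
          = ((cl (f.P.coeff f.d / f.Q.coeff f.d) : BA K) : P1B K) := act_inf' f hc
      rw [h1]
      have hQd' : f.Q.natDegree = f.d := le_antisymm hQd (le_natDegree_of_ne_zero hc)
      have hQ0 : f.Q ≠ 0 := by
        intro h
        rw [h, coeff_zero] at hc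
        exact hc rfl
      refine tendsto_fin hNB f _ _ ?_ ?_
      · obtain ⟨R', hR'⟩ := ratio hVAL hISO f.Q f.Q f.d hQd hQd' hQ0 hd 1 one_pos
        refine nhds_inf hNB R' _ ⟨_, h1⟩ (fun y hy => ?_)
        exact ⟨_, act_coe f y (hR' y hy).1.ne'⟩
      · intro b ε hε
        have hgd : (f.P - C b * f.Q).natDegree ≤ f.d :=
          (natDegree_sub_le _ _).trans (max_le hPd ((natDegree_C_mul_le _ _).trans hQd))
        obtain ⟨R', hR'⟩ := ratio hVAL hISO (f.P - C b * f.Q) f.Q f.d hgd hQd' hQ0 hd ε hε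
        have h5 : lam (cl (f.P.coeff f.d / f.Q.coeff f.d) : BA K) b
            = ‖(f.P - C b * f.Q).coeff f.d‖ / ‖f.Q.coeff f.d‖ := by
          change ‖(X - C b).eval (f.P.coeff f.d / f.Q.coeff f.d)‖ = _
          rw [eval_sub, eval_X, eval_C, coeff_sub, coeff_C_mul, ← norm_div]
          congr 1
          field_simp
        refine nhds_inf hNB R' _ ?_ ?_
        · intro z hz
          rw [h1] at hz
          have h4 := OnePoint.coe_injective hz
          rw [← h4, sub_self, abs_zero]
          exact hε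
        · intro y hy z hz
          obtain ⟨h2, h3⟩ := hR' y hy
          rw [act_coe f y h2.ne'] at hz
          have h4 : push f y h2.ne' = z := OnePoint.coe_injective hz
          rw [← h4, lam_push, h5]
          exact h3
  · change Tendsto f.act (𝓝 (x : P1B K)) (𝓝 (f.act (x : P1B K)))
    by_cases hxQ : x f.Q = 0
    · rw [act_coe_zero f x hxQ]
      refine tendsto_inf hNB f _ (fun R hR => ?_)
      rw [OnePoint.nhds_coe_eq, eventually_map]
      have hxP : 0 < x f.P := by
        refine lt_of_le_of_ne (x.nonneg' _) (Ne.symm ?_)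
        intro h0
        obtain ⟨a, b, hab⟩ := f.cop
        have h1 := x.map_add' (a * f.P) (b * f.Q)
        rw [hab, BA.map_one, x.map_mul', x.map_mul', h0, hxQ, mul_zero, mul_zero, max_self] at h1
        linarith
      have h1 : ∀ᶠ y : BA K in 𝓝 x, x f.P / 2 < y f.P :=
        (hEV K f.P).continuousAt.eventually (lt_mem_nhds (by linarith))
      have h2 : ∀ᶠ y : BA K in 𝓝 x, R * y f.Q < x f.P / 2 := by
        have h3 : Continuous (fun y : BA K => R * y f.Q) := continuous_const.mul (hEV K f.Q)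
        have h4 : R * x f.Q < x f.P / 2 := by
          rw [hxQ, mul_zero]
          linarith
        exact h3.continuousAt.eventually (gt_mem_nhds h4)
      filter_upwards [h1, h2] with y hy1 hy2 z hz
      by_cases hyQ : y f.Q = 0
      · rw [act_coe_zero f y hyQ] at hz
        exact absurd hz (OnePoint.infty_ne_coe z)
      · rw [act_coe f y hyQ] at hz
        have h4 : push f y hyQ = z := OnePoint.coe_injective hz
        rw [← h4, lam_push, C_0, zero_mul, sub_zero]
        have hyQ' : 0 < y f.Q := lt_of_le_of_ne (y.nonneg' _) (Ne.symm hyQ)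
        rw [lt_div_iff₀ hyQ']
        linarith
    · rw [act_coe f x hxQ]
      have hQ : ∀ᶠ y : BA K in 𝓝 x, y f.Q ≠ 0 :=
        (hEV K f.Q).continuousAt.eventually (isOpen_ne.mem_nhds hxQ)
      refine tendsto_fin hNB f _ _ ?_ ?_
      · rw [OnePoint.nhds_coe_eq, eventually_map]
        filter_upwards [hQ] with y hy
        exact ⟨_, act_coe f y hy⟩
      · intro b ε hε
        rw [OnePoint.nhds_coe_eq, eventually_map]
        have h1 : ContinuousAt (fun y : BA K => y (f.P - C b * f.Q) / y f.Q) x :=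
          (hEV K _).continuousAt.div (hEV K _).continuousAt hxQ
        have h2 : ∀ᶠ y : BA K in 𝓝 x,
            |y (f.P - C b * f.Q) / y f.Q - x (f.P - C b * f.Q) / x f.Q| < ε := by
          have h3 := h1.eventually (Metric.ball_mem_nhds _ hε)
          filter_upwards [h3] with y hy
          rw [Real.dist_eq] at hy
          exact hy
        filter_upwards [hQ, h2] with y hy1 hy2 z hz
        rw [act_coe f y hy1] at hz
        have h4 : push f y hy1 = z := OnePoint.coe_injective hz
        rw [← h4, lam_push, lam_push]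
        exact hy2

end Pool.Agent.W571.BK.Actc
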