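import Pool.Agent.W571.BK.Actc
set_option autoImplicit false

/-!
# Project BK: uniformly bounded potentials of the fibres of `R^n`
-/

open Polynomial Topology Filter

namespace Pool.Agent.W571.BK.Sumn

open Pool.Agent.W95.BK

universe u

theorem log_prod {ι : Type*} (g : ι → ℝ) (s : Multiset ι) :
    (∀ z ∈ s, 0 < g z) → Real.log (s.map g).prod = (s.map (fun z => Real.log (g z))).sum ∧
      0 < (s.map g).prod := by
  induction s using Multiset.induction_on with
  | empty =>
    intro _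
    simp
  | cons a s ih =>
    intro h
    obtain ⟨h1, h2⟩ := ih (fun z hz => h z (Multiset.mem_cons_of_mem hz))
    have h3 := h a (Multiset.mem_cons_self a s)
    rw [Multiset.map_cons, Multiset.prod_cons, Multiset.map_cons, Multiset.sum_cons,
      Real.log_mul h3.ne' h2.ne', h1]
    exact ⟨rfl, mul_pos h3 h2⟩

theorem log_val {K : Type u} [NontriviallyNormedField K] [IsAlgClosed K] (hVAL : S_VAL.{u})
    (x : BA K) (h : K[X]) (h0 : h ≠ 0) (hx : ∀ z ∈ h.roots, 0 < lam x z) :
    Real.log (x h) = Real.log ‖h.leadingCoeff‖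
      + (h.roots.map (fun z => Real.log (lam x z))).sum := by
  obtain ⟨h1, h2⟩ := log_prod (fun z => lam x z) h.roots hx
  have h3 : 0 < ‖h.leadingCoeff‖ := norm_pos_iff.2 (leadingCoeff_ne_zero.2 h0)
  rw [hVAL K x h, Real.log_mul h3.ne' h2.ne', h1]

theorem main (hGREEN : S_GREEN.{u}) (hKGP : S_KGP.{u}) (hACT : S_ACT.{u})
    (hAVOID : S_AVOID.{u}) (hVAL : S_VAL.{u}) (hGLAM : S_GLAM.{u}) (hITER : S_ITER.{u}) :
    S_SUMN.{u} := by
  intro K _ _ _ R hR
  obtain ⟨B₀, hB₀, hG⟩ := hGREEN K R hR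
  refine ⟨4 * B₀ + 2, by linarith, fun n y hy => ?_⟩
  have hd1 : (1 : ℝ) ≤ (R.d : ℝ) ^ n := by
    refine one_le_pow₀ ?_
    exact_mod_cast (by omega : 1 ≤ R.d)
  have hd0 : (0 : ℝ) < (R.d : ℝ) ^ n := by linarith
  -- the Green function
  have hgr : ∀ x : BA K, 0 < max (x (R.iter n).P) (x (R.iter n).Q) ∧
      |Real.log (max (x (R.iter n).P) (x (R.iter n).Q))
        - (R.d : ℝ) ^ n * Real.log (max 1 (x X))| ≤ 2 * B₀ * (R.d : ℝ) ^ n := by
    intro x
    obtain ⟨h1, h2⟩ := hG x
    obtain ⟨h3, h4⟩ := h2 n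
    refine ⟨h3, ?_⟩
    have h5 : |Real.log (max (x (R.iter n).P) (x (R.iter n).Q)) - (R.d : ℝ) ^ n * gr R x| ≤ B₀ := by
      have h6 : Real.log (max (x (R.iter n).P) (x (R.iter n).Q)) - (R.d : ℝ) ^ n * gr R x
          = (R.d : ℝ) ^ n * (Real.log (max (x (R.iter n).P) (x (R.iter n).Q)) / (R.d : ℝ) ^ n
            - gr R x) := by
        field_simp
      rw [h6, abs_mul, abs_of_pos hd0]
      calc (R.d : ℝ) ^ n * _ ≤ (R.d : ℝ) ^ n * (B₀ / (R.d : ℝ) ^ n) :=
            mul_le_mul_of_nonneg_left h4 hd0.le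
        _ = B₀ := by field_simp
    have h7 : |(R.d : ℝ) ^ n * gr R x - (R.d : ℝ) ^ n * Real.log (max 1 (x X))|
        ≤ B₀ * (R.d : ℝ) ^ n := by
      rw [← mul_sub, abs_mul, abs_of_pos hd0, mul_comm]
      exact mul_le_mul_of_nonneg_right h1 hd0.le
    have h8 : B₀ ≤ B₀ * (R.d : ℝ) ^ n := le_mul_of_one_le_right hB₀.le hd1
    have h9 := abs_sub_le (Real.log (max (x (R.iter n).P) (x (R.iter n).Q)))
      ((R.d : ℝ) ^ n * gr R x) ((R.d : ℝ) ^ n * Real.log (max 1 (x X)))
    linarith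
  obtain ⟨hgy0, hgy⟩ := hgr y
  obtain ⟨hgg0, hgg⟩ := hgr (gauss 0 1 one_pos)
  have hgX : (gauss (0 : K) 1 one_pos : BA K) X = 1 := by
    have h1 := (hGLAM K 0 0).2 1 one_pos
    have h2 : lam (gauss (0 : K) 1 one_pos) 0 = (gauss (0 : K) 1 one_pos : BA K) X := by
      unfold lam
      rw [C_0, sub_zero]
    rw [← h2, h1, sub_zero, norm_zero]
    norm_num
  rw [hgX, max_self, Real.log_one, mul_zero, sub_zero] at hgg
  -- the action
  obtain ⟨z, hz, hyz, -, hlamz⟩ := (hACT K (R.iter n)).1 y hy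
  have hQ0 : y (R.iter n).Q ≠ 0 := by
    intro h
    rw [Actc.act_coe_zero _ _ h] at hyz
    exact OnePoint.infty_ne_coe z hyz
  have hQpos : 0 < y (R.iter n).Q := lt_of_le_of_ne (y.nonneg' _) (Ne.symm hQ0)
  have hzX : z X = y (R.iter n).P / y (R.iter n).Q := by
    have h1 := hlamz 0
    unfold lam at h1
    rw [C_0, sub_zero, zero_mul, sub_zero] at h1
    exact h1
  have hlim : Tendsto (fun b => y (R.iter n).Q * lam z b)
      (toward ((gauss (0 : K) 1 one_pos : BA K) : P1B K))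
      (𝓝 (max (y (R.iter n).P) (y (R.iter n).Q))) := by
    have h1 := (hKGP K z).const_mul (y (R.iter n).Q)
    have h2 : y (R.iter n).Q * max (z X) 1 = max (y (R.iter n).P) (y (R.iter n).Q) := by
      rw [hzX, mul_max_of_nonneg _ _ hQpos.le, mul_one, mul_div_cancel₀ _ hQ0]
    rw [h2] at h1
    exact h1
  have hlim2 : Tendsto (fun b : K => ‖b‖)
      (toward ((gauss (0 : K) 1 one_pos : BA K) : P1B K)) (𝓝 1) := by
    have h1 := hKGP K (cl 0)
    have h2 : (cl (0 : K) : BA K) X = 0 := by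
      change ‖(X : K[X]).eval 0‖ = 0
      rw [eval_X, norm_zero]
    rw [h2, max_eq_right zero_le_one] at h1
    refine h1.congr (fun b => ?_)
    rw [(hGLAM K 0 b).1, zero_sub, norm_neg]
  have e1 := hlim.eventually (lt_mem_nhds (by linarith :
    max (y (R.iter n).P) (y (R.iter n).Q) / 2 < max (y (R.iter n).P) (y (R.iter n).Q)))
  have e2 := hlim2.eventually (gt_mem_nhds (by norm_num : (1 : ℝ) < 2))
  filter_upwards [e1, e2] with b hb1 hb2
  set F := (R.iter n).P - C b * (R.iter n).Q with hF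
  have hyF : y F = y (R.iter n).Q * lam z b := by
    rw [hlamz b, mul_div_cancel₀ _ hQ0]
  have hyFpos : 0 < y F := by
    rw [hyF]
    linarith
  have hF0 : F ≠ 0 := by
    intro h
    rw [h, BA.map_zero] at hyFpos
    exact lt_irrefl _ hyFpos
  have hlamy : ∀ w ∈ F.roots, 0 < lam y w := by
    intro w _
    refine lt_of_le_of_ne (y.nonneg' _) (Ne.symm ?_)
    exact (hAVOID K y hy).1 _ (X_sub_C_ne_zero w)
  have hlamg : ∀ w : K, lam (gauss (0 : K) 1 one_pos) w = max 1 ‖w‖ := by
    intro w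
    rw [(hGLAM K 0 w).2 1 one_pos, zero_sub, norm_neg, max_comm]
  have h1 := log_val hVAL y F hF0 hlamy
  have h2 := log_val hVAL (gauss (0 : K) 1 one_pos) F hF0 (fun w _ => by
    rw [hlamg w]
    exact lt_of_lt_of_le one_pos (le_max_left _ _))
  have h3 : F.roots.map (fun w => Real.log (lam (gauss (0 : K) 1 one_pos) w))
      = F.roots.map (fun w => Real.log (max 1 ‖w‖)) := by
    refine Multiset.map_congr rfl (fun w _ => ?_)
    rw [hlamg w]
  rw [h3] at h2
  have h4 : (F.roots.map (fun w => Real.log (max 1 ‖w‖) + Real.log (max 1 (y X))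
      - Real.log (lam y w))).sum = (F.roots.map (fun w => Real.log (max 1 ‖w‖))).sum
        + (F.roots.card : ℝ) * Real.log (max 1 (y X))
        - (F.roots.map (fun w => Real.log (lam y w))).sum := by
    rw [Multiset.sum_map_sub, Multiset.sum_map_add, Multiset.map_const', Multiset.sum_replicate,
      nsmul_eq_mul]
  rw [h4]
  -- the degree
  have h5 : (F.roots.card : ℝ) ≤ (R.d : ℝ) ^ n := by
    have h6 : F.roots.card ≤ F.natDegree := card_roots' F
    have h7 : F.natDegree ≤ (R.iter n).d := by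
      refine (natDegree_sub_le _ _).trans (max_le ?_ ((natDegree_C_mul_le _ _).trans ?_))
      · exact (R.iter n).deg_eq ▸ le_max_left _ _
      · exact (R.iter n).deg_eq ▸ le_max_right _ _
    rw [(hITER K R).1 n] at h7
    exact_mod_cast h6.trans h7
  have hlog0 : 0 ≤ Real.log (max 1 (y X)) := Real.log_nonneg (le_max_left _ _)
  have h6 : (F.roots.card : ℝ) * Real.log (max 1 (y X))
      ≤ (R.d : ℝ) ^ n * Real.log (max 1 (y X)) := mul_le_mul_of_nonneg_right h5 hlog0
  -- lower bound for `y F`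
  have h7 : Real.log (max (y (R.iter n).P) (y (R.iter n).Q)) - Real.log 2 ≤ Real.log (y F) := by
    rw [← Real.log_div hgy0.ne' (by norm_num)]
    refine Real.log_le_log (by positivity) ?_
    rw [hyF]
    exact hb1.le
  -- upper bound for the Gauss norm of `F`
  have hgFpos : 0 < (gauss (0 : K) 1 one_pos : BA K) F := by
    rw [hVAL K _ F]
    refine mul_pos (norm_pos_iff.2 (leadingCoeff_ne_zero.2 hF0)) ?_
    refine (log_prod (fun w => lam (gauss (0 : K) 1 one_pos) w) F.roots (fun w _ => ?_)).2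
    rw [hlamg w]
    exact lt_of_lt_of_le one_pos (le_max_left _ _)
  have h8 : Real.log ((gauss (0 : K) 1 one_pos : BA K) F) ≤ Real.log 2
      + Real.log (max ((gauss (0 : K) 1 one_pos : BA K) (R.iter n).P)
        ((gauss (0 : K) 1 one_pos : BA K) (R.iter n).Q)) := by
    rw [← Real.log_mul (by norm_num) hgg0.ne']
    refine Real.log_le_log hgFpos ?_
    have h9 := (gauss (0 : K) 1 one_pos : BA K).map_add' (R.iter n).P (-(C b * (R.iter n).Q))
    have h10 : (gauss (0 : K) 1 one_pos : BA K) (-(C b * (R.iter n).Q))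
        = ‖b‖ * (gauss (0 : K) 1 one_pos : BA K) (R.iter n).Q := by
      have h11 : -(C b * (R.iter n).Q) = C (-b) * (R.iter n).Q := by
        rw [C_neg, neg_mul]
      rw [h11, BA.map_mul', BA.map_C', norm_neg]
    rw [h10, ← sub_eq_add_neg, ← hF] at h9
    refine h9.trans (max_le ?_ ?_)
    · have := le_max_left ((gauss (0 : K) 1 one_pos : BA K) (R.iter n).P)
        ((gauss (0 : K) 1 one_pos : BA K) (R.iter n).Q)
      linarith
    · have h12 := le_max_right ((gauss (0 : K) 1 one_pos : BA K) (R.iter n).P)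
        ((gauss (0 : K) 1 one_pos : BA K) (R.iter n).Q)
      exact mul_le_mul hb2.le h12 (BA.nonneg' _ _) (by norm_num)
  have hlog2 : Real.log 2 ≤ 1 := by
    have := Real.log_two_lt_d9
    linarith
  have ha1 := (abs_le.1 hgy).1
  have ha2 := (abs_le.1 hgg).2
  have hfin : 2 * Real.log 2 ≤ 2 * (R.d : ℝ) ^ n := by linarith
  linarith

end Pool.Agent.W571.BK.Sumn
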