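import Pool.Agent.W622.BK.Stm

/-! Project BK, part SURO: surjectivity in degree one. -/

set_option autoImplicit false

namespace Pool.Agent.W571.BK

open Module Pool.Agent.W622.BK

universe u

theorem one_inj {k : Type u} [Field k] {E : Type u} [AddCommGroup E] [Module k E] {a b : G k E 1}
    (h : one k E a = one k E b) : a = b := by
  apply (cur k E).injective
  ext1 e
  apply (ev0 k E).injective
  exact LinearMap.congr_fun h e

theorem t_SURO : Pool.Agent.W622.BK.S_SURO.{u} := by
  intro k _ E _ _ R X u η hη
  obtain ⟨r, hr, hru⟩ := hη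
  have hru' : r u = one k E η := hru
  let F : E →ₗ[k] G k E 1 :=
    (cur k E).symm.toLinearMap ∘ₗ (r.compr₂ (ev0 k E).symm.toLinearMap)
  have hc1 : cur k E ((cur k E).symm F) = F := LinearEquiv.apply_symm_apply _ _
  have hF : ∀ e, cur k E (F e) = (ev0 k E).symm.toLinearMap ∘ₗ (r e) := fun e =>
    LinearEquiv.apply_symm_apply _ _
  have hone : ∀ e, one k E (F e) = r e := by
    intro e
    unfold one
    rw [hF]
    ext e'
    simp
  refine ⟨(cur k E).symm F, ⟨fun e => ?_, fun φ => ?_⟩, ?_⟩
  · rw [hc1]
    change one k E (F e) ∈ X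
    rw [hone]
    exact hr.2 e
  · have h : (cc k E ((cur k E).symm F)).compr₂ φ = (φ ((ev0 k E).symm 1)) • r := by
      ext e e'
      change φ (cur k E (cur k E ((cur k E).symm F) e) e') = _
      rw [hc1, hF]
      change φ ((ev0 k E).symm (r e e')) = φ ((ev0 k E).symm 1) * r e e'
      have h2 : (ev0 k E).symm (r e e') = (r e e') • (ev0 k E).symm 1 := by
        rw [← map_smul, smul_eq_mul, mul_one]
      rw [h2, map_smul, smul_eq_mul, mul_comm]
    rw [h]
    exact R.smul_mem _ hr.1
  · rw [hc1]
    apply one_inj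
    rw [hone]
    exact hru'

end Pool.Agent.W571.BK
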