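import Pool.Agent.W622.BK.Stm

/-! Project BK, part TRI: the trilinear form of the base case. -/

set_option autoImplicit false

namespace Pool.Agent.W571.BK.Tri

open Module Pool.Agent.W622.BK

universe u

section

variable {k : Type u} [Field k] {E : Type u} [AddCommGroup E] [Module k E]

theorem skew {V : Type u} [AddCommGroup V] [Module k V] (f : E →ₗ[k] E →ₗ[k] V)
    (h : ∀ x, f x x = 0) (x y : E) : f x y = - f y x := by
  have h1 := h (x + y)
  simp only [map_add, LinearMap.add_apply, h x, h y, zero_add, add_zero] at h1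
  first
    | exact eq_neg_of_add_eq_zero_left h1
    | exact eq_neg_of_add_eq_zero_right h1

/-- the cyclic rotation of a trilinear form -/
noncomputable def rot (κ : E →ₗ[k] E →ₗ[k] E →ₗ[k] k) : E →ₗ[k] E →ₗ[k] E →ₗ[k] k where
  toFun a := κ.compr₂ (LinearMap.applyₗ a)
  map_add' a b := by
    ext e e'
    simp
  map_smul' c a := by
    ext e e'
    simp

theorem rot_apply (κ : E →ₗ[k] E →ₗ[k] E →ₗ[k] k) (a e e' : E) : rot κ a e e' = κ e e' a := rfl

end

theorem t_TRI : Pool.Agent.W622.BK.S_TRI.{u} := by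
  intro hPRJ hABL hJAC hJACA hREP k _ L _ _ E _ _ _ j X h2 hj hquad τ hτX hτ
  obtain ⟨π, hπ1, hπ2, hπ3⟩ := hPRJ k E X
  -- invariance
  have hinv : ∀ f : E →ₗ[k] k, (∀ a, f (π a) = f a) → f ∈ X := by
    intro f hf
    have h := hπ2 f
    have h1 : f ∘ₗ π = f := by
      ext a
      exact hf a
    rwa [h1] at h
  have hτπ : ∀ a e e', τ (π a) e e' = τ a e e' := by
    intro a e e'
    have h := hπ1 _ (hτX e e')
    exact LinearMap.congr_fun h a
  obtain ⟨τ₁, τ₂, hsum, h1R, h2R⟩ := hτ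
  have hsum' : ∀ a e e', τ a e e' = τ₁ a e e' + τ₂ a e e' := hsum
  have h1a : ∀ a e', τ₁ a a e' = 0 := fun a e' => (h1R e').1 a
  have h2a : ∀ a e, τ₂ a e e = 0 := fun a e => (h2R a).1 e
  obtain ⟨σ₁, σ₂, hσ, s1a, s1π, s2a, s2π⟩ := hABL k E π τ τ₁ τ₂ h2 hπ3 hτπ hsum' h1a h2a
  -- skewness
  have sk1 : ∀ (f : E →ₗ[k] E →ₗ[k] E →ₗ[k] k), (∀ a e', f a a e' = 0) →
      ∀ a e e', f a e e' = - f e a e' := by
    intro f hf a e e'
    have h := skew f (fun x => by ext e'; exact hf x e') a e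
    rw [h]
    rfl
  have sk2 : ∀ (f : E →ₗ[k] E →ₗ[k] E →ₗ[k] k), (∀ a e, f a e e = 0) →
      ∀ a e e', f a e e' = - f a e' e := by
    intro f hf a e e'
    exact skew (f a) (fun x => hf a x) e e'
  -- the claim
  have claim : ∀ z, σ₁.compr₂ (LinearMap.applyₗ z) + σ₂ z ∈ Rj j := by
    intro z
    have h : σ₁.compr₂ (LinearMap.applyₗ z) + σ₂ z = τ₁.compr₂ (LinearMap.applyₗ z) + τ₂ z := by
      ext a e
      change σ₁ a e z + σ₂ z a e = τ₁ a e z + τ₂ z a e
      have H1 := (hσ a e z).symm.trans (hsum' a e z)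
      have H2 := (hσ a z e).symm.trans (hsum' a z e)
      have H3 := (hσ z a e).symm.trans (hsum' z a e)
      have k1 := sk2 σ₂ s2a a e z
      have k2 := sk2 τ₂ h2a a e z
      have k3 := sk1 σ₁ s1a a z e
      have k4 := sk1 τ₁ h1a a z e
      linear_combination H1 + H2 + H3 - k1 + k2 - k3 + k4
    rw [h]
    exact (Rj j).add_mem (h1R z) (h2R z)
  have claim0 : ∀ z, π z = 0 → σ₁.compr₂ (LinearMap.applyₗ z) ∈ Rj j := by
    intro z hz
    have h := claim z
    have h3 : σ₂ z = 0 := by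
      ext e e'
      have := s2π z e e'
      rw [hz, map_zero] at this
      exact this.symm
    rwa [h3, add_zero] at h
  -- the pieces
  set κ : E →ₗ[k] E →ₗ[k] E →ₗ[k] k := σ₁.compr₂ (LinearMap.lcomp k k π) with hκ
  have κap : ∀ a e e', κ a e e' = σ₁ a e (π e') := fun _ _ _ => rfl
  set s' : E →ₗ[k] E →ₗ[k] E →ₗ[k] k := σ₁ + (-1 : k) • κ with hs'
  have s'ap : ∀ a e e', s' a e e' = σ₁ a e e' - σ₁ a e (π e') := by
    intro a e e'
    change σ₁ a e e' + (-1 : k) * σ₁ a e (π e') = _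
    ring
  set ρ : E →ₗ[k] E →ₗ[k] E →ₗ[k] k := σ₂ + rot κ with hρ
  have ρap : ∀ a e e', ρ a e e' = σ₂ a e e' + σ₁ e e' (π a) := fun _ _ _ => rfl
  have hsplit : ∀ a e e', τ a e e' = s' a e e' + ρ a e e' + (κ a e e' - κ e e' a) := by
    intro a e e'
    rw [hσ, s'ap, ρap, κap, κap]
    ring
  have hs'R : ∀ e', s'.compr₂ (LinearMap.applyₗ e') ∈ Rx (Rj j) X := by
    intro e'
    have h : s'.compr₂ (LinearMap.applyₗ e') = σ₁.compr₂ (LinearMap.applyₗ (e' - π e')) := by
      ext a e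
      change s' a e e' = σ₁ a e (e' - π e')
      rw [s'ap, map_sub]
    rw [h]
    refine ⟨claim0 _ (by rw [map_sub, hπ3, sub_self]), fun a => ?_⟩
    refine hinv _ fun e => ?_
    change σ₁ a (π e) (e' - π e') = σ₁ a e (e' - π e')
    rw [sk1 σ₁ s1a a (π e), s1π, ← sk1 σ₁ s1a a e]
  have hρR : ∀ a, ρ a ∈ Rj j := by
    intro a
    have h := claim (π a)
    have h3 : σ₁.compr₂ (LinearMap.applyₗ (π a)) + σ₂ (π a) = ρ a := by
      ext e e'
      change σ₁ e e' (π a) + σ₂ (π a) e e' = ρ a e e'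
      rw [ρap, s2π, add_comm]
    rwa [h3] at h
  have hρX : ∀ e e', (ρ.flip e).flip e' ∈ X := by
    intro e e'
    refine hinv _ fun a => ?_
    change ρ (π a) e e' = ρ a e e'
    rw [ρap, ρap, s2π, hπ3]
  have κalt : ∀ a e', κ a a e' = 0 := by
    intro a e'
    rw [κap]
    exact s1a a (π e')
  have hCyc : Cyc (Rj j) (fun a e e' => κ a e e' - κ e e' a) := by
    refine ⟨τ₁ + (-1 : k) • s', τ₂ + (-1 : k) • ρ, ?_, ?_, ?_⟩
    · intro a e e'
      have h := hsplit a e e'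
      rw [hsum'] at h
      change κ a e e' - κ e e' a = (τ₁ a e e' + (-1 : k) * s' a e e') +
        (τ₂ a e e' + (-1 : k) * ρ a e e')
      linear_combination -h
    · intro e'
      exact (Rj j).add_mem (h1R e') ((Rj j).smul_mem _ (hs'R e').1)
    · intro a
      exact (Rj j).add_mem (h2R a) ((Rj j).smul_mem _ (hρR a))
  have hBr := hJAC hJACA k L E j κ κalt hCyc
  have hDec := hREP k L E j X h2 hj hquad κ κalt
    (fun a e => hπ2 (σ₁ a e))
    (fun a e' => hinv _ fun e => by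
      change σ₁ a (π e) (π e') = σ₁ a e (π e')
      rw [sk1 σ₁ s1a a (π e), s1π, ← sk1 σ₁ s1a a e])
    (fun e e' => hinv _ fun a => by
      change σ₁ (π a) e (π e') = σ₁ a e (π e')
      rw [s1π]) hBr
  obtain ⟨s₀, p₀, hd, hd1, hd2, hd3⟩ := hDec
  refine ⟨s₀ + s', p₀ + ρ, ?_, ?_, ?_, ?_⟩
  · intro a e e'
    have h := hd a e e'
    simp only at h
    change τ a e e' = (s₀ a e e' + s' a e e') + (p₀ a e e' + ρ a e e')
    rw [hsplit]
    linear_combination h
  · intro e'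
    exact (Rx (Rj j) X).add_mem (hd1 e') (hs'R e')
  · intro a
    exact (Rj j).add_mem (hd2 a) (hρR a)
  · intro e e'
    exact X.add_mem (hd3 e e') (hρX e e')

end Pool.Agent.W571.BK.Tri
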